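import Pool.Agent.Helper15.AF.Goals2
import Pool.Agent.Helper86.JT.TBJ

/-! Packet AF-TBM: dropping the unbalanced terms, when the top function may depend on the coins. -/

namespace Pool.Agent.Helper85.AF

open Pool.Agent.Helper78.DT Pool.Agent.Helper78.JT Pool.Agent.Helper15.AF
open Pool.Agent.Helper86.JT (one_list)
open scoped Classical

theorem tbm_of (hB : BalStmt) : TbmStmt := by
  intro n P K t e W r hP hK hKP hn H f hf
  have hP0 : 0 < P := hP.pos
  have : Nonempty (Fin P) := ⟨⟨0, hP0⟩⟩
  set B : ℝ := (W : ℝ) ^ 2 * e / P + (W.choose (t + 1)) * 2 ^ (t + 1) / (K : ℝ) ^ t with hBdef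
  have hB0 : 0 ≤ B := by positivity
  have hrB0 : 0 ≤ (r : ℝ) * B := by positivity
  set D : (Fin (t + 2) → Fin P) → (Fin n → Bool) → ℝ := fun A b =>
    (if H (fun i => ev ((f i).filter (bal K t (pt P K t e (ext A)))) b) b = true then (1 : ℝ) else 0)
      - (if H (fun i => ev (f i) b) b = true then (1 : ℝ) else 0) with hD
  have e1 : pr (fun z : (Fin (t + 2) → Fin P) × (Fin n → Bool) =>
        H (fun i => ev ((f i).filter (bal K t (pt P K t e (ext z.1)))) z.2) z.2 = true) -
      pr (fun x => H (fun i => ev (f i) x) x = true) = av fun b => av fun A => D A b := by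
    have h1 : pr (fun z : (Fin (t + 2) → Fin P) × (Fin n → Bool) =>
        H (fun i => ev ((f i).filter (bal K t (pt P K t e (ext z.1)))) z.2) z.2 = true) =
        av fun b : Fin n → Bool => av fun A : Fin (t + 2) → Fin P =>
          if H (fun i => ev ((f i).filter (bal K t (pt P K t e (ext A)))) b) b = true then
            (1 : ℝ) else 0 := by
      rw [pr_eq_av, av_prod]
      refine (av_comm (fun (A : Fin (t + 2) → Fin P) (b : Fin n → Bool) => _)).trans ?_
      refine av_congr fun b => av_congr fun A => ?_
      split_ifs <;> rfl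
    have h2 : pr (fun x => H (fun i => ev (f i) x) x = true) =
        av fun b : Fin n → Bool => av fun _ : Fin (t + 2) → Fin P =>
          if H (fun i => ev (f i) b) b = true then (1 : ℝ) else 0 := by
      rw [pr_eq_av]
      refine av_congr fun b => ?_
      rw [av_const]
      split_ifs <;> rfl
    rw [h1, h2, ← av_sub]
    refine av_congr fun b => ?_
    rw [← av_sub]
  rw [e1]
  refine (abs_av_le _).trans (av_le_of_le hrB0 fun b => ?_)
  refine (abs_av_le _).trans ?_
  have h3 : ∀ A : Fin (t + 2) → Fin P, |D A b| ≤ ∑ i : Fin r,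
      if ev ((f i).filter (bal K t (pt P K t e (ext A)))) b ≠ ev (f i) b then (1 : ℝ) else 0 := by
    intro A
    by_cases hall : ∀ i, ev ((f i).filter (bal K t (pt P K t e (ext A)))) b = ev (f i) b
    · have h4 : (fun i => ev ((f i).filter (bal K t (pt P K t e (ext A)))) b) =
          fun i => ev (f i) b := funext hall
      simp only [hD, h4, sub_self, abs_zero]
      refine Finset.sum_nonneg fun i _ => ?_
      split_ifs <;> norm_num
    · push Not at hall
      obtain ⟨i, hi⟩ := hall
      have h5 : (1 : ℝ) ≤ ∑ i : Fin r,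
          if ev ((f i).filter (bal K t (pt P K t e (ext A)))) b ≠ ev (f i) b then (1 : ℝ)
          else 0 := by
        have h6 := Finset.single_le_sum (f := fun i : Fin r =>
          if ev ((f i).filter (bal K t (pt P K t e (ext A)))) b ≠ ev (f i) b then (1 : ℝ)
          else 0) (fun i _ => by split_ifs <;> norm_num) (Finset.mem_univ i)
        simp only [if_pos hi] at h6
        exact h6
      refine le_trans ?_ h5
      simp only [hD]
      split_ifs <;> norm_num
  refine (av_mono h3).trans ?_
  rw [Pool.Agent.Helper86.JT.av_sum]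
  calc (∑ i : Fin r, av fun A : Fin (t + 2) → Fin P =>
        if ev ((f i).filter (bal K t (pt P K t e (ext A)))) b ≠ ev (f i) b then (1 : ℝ) else 0)
      ≤ ∑ _i : Fin r, B :=
        Finset.sum_le_sum fun i _ => one_list hB hP hK hKP hn (f i) (hf i) b
    _ = r * B := by simp

/-- Packet AF-TBM. -/
theorem tbm : TbmStmt :=
  tbm_of (Pool.Agent.Helper38.DT.bal Pool.Agent.Helper35.DT.lag
    (Pool.Agent.Helper59.DT.inj Pool.Agent.Helper59.DT.hsh))

end Pool.Agent.Helper85.AF
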