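import Pool.Agent.Helper26.AF.Goals3

/-!
Project AF (MP_af6c86_pr), packet WR.
-/

namespace Pool.Agent.Helper85.AF

open Finset Filter Topology Pool.Agent.Helper26.AF

theorem expfac (l δ : ℝ) (hδ : 0 < δ) (hδ1 : δ < 1 / 2) (n : ℕ) (hn : 1 ≤ n)
    (he : |l / (n : ℝ) ^ ((1 : ℝ) / 3)| ≤ δ / 4) (hp : (2 : ℝ) / n ≤ δ / 8) (j r : ℕ) (hj : j ≤ n) :
    (pc l n / (1 - pc l n)) ^ (j + r) * ((n : ℝ) ^ j *
      Real.exp (- l * j / (n : ℝ) ^ ((1 : ℝ) / 3))) ≤ Real.exp 4 * ((1 + δ) ^ r / (n : ℝ) ^ r) ∧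
    0 ≤ pc l n / (1 - pc l n) := by
  set e : ℝ := l / (n : ℝ) ^ ((1 : ℝ) / 3) with hedef
  have hn0 : (0 : ℝ) < n := by exact_mod_cast hn
  have he1 : -(δ / 4) ≤ e := (abs_le.1 he).1
  have he2 : e ≤ δ / 4 := (abs_le.1 he).2
  set p : ℝ := pc l n with hpdef
  have hpe : p = (1 + e) / n := rfl
  have hp0 : 0 < p := by
    rw [hpe]
    apply div_pos _ hn0
    linarith
  have hp2 : p ≤ 2 / n := by
    rw [hpe]
    apply div_le_div_of_nonneg_right _ hn0.le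
    linarith
  have hp8 : p ≤ δ / 8 := hp2.trans hp
  have h1p : 0 < 1 - p := by linarith
  have hu0 : 0 ≤ p / (1 - p) := (div_pos hp0 h1p).le
  refine ⟨?_, hu0⟩
  have hnp : (n : ℝ) * p = 1 + e := by
    rw [hpe]
    field_simp
  set w : ℝ := (n : ℝ) * (p / (1 - p)) with hwdef
  have hw : w = (1 + e) / (1 - p) := by
    rw [hwdef, ← hnp]
    ring
  have hw0 : 0 ≤ w := mul_nonneg hn0.le hu0
  have hw1 : w ≤ 1 + δ := by
    rw [hw, div_le_iff₀ h1p]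
    nlinarith
  have hw2 : w ≤ Real.exp (e + 2 * p) := by
    rw [hw, Real.exp_add]
    have h1 : 1 + e ≤ Real.exp e := by
      have := Real.add_one_le_exp e
      linarith
    have h2 : 1 / (1 - p) ≤ Real.exp (2 * p) := by
      have h3 := Real.add_one_le_exp (2 * p)
      rw [div_le_iff₀ h1p]
      have h4 : 1 ≤ (2 * p + 1) * (1 - p) := by nlinarith
      nlinarith
    calc (1 + e) / (1 - p) = (1 + e) * (1 / (1 - p)) := by ring
      _ ≤ Real.exp e * Real.exp (2 * p) := by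
        apply mul_le_mul h1 h2 (by positivity) (Real.exp_pos _).le
  have hpw : (p / (1 - p)) ^ (j + r) * (n : ℝ) ^ j = w ^ j * (w ^ r / (n : ℝ) ^ r) := by
    rw [hwdef, mul_pow, mul_pow, pow_add]
    field_simp
  have hexp : Real.exp (- l * j / (n : ℝ) ^ ((1 : ℝ) / 3)) = Real.exp (-(e * j)) := by
    congr 1
    rw [hedef]
    ring
  have hwj : w ^ j * Real.exp (-(e * j)) ≤ Real.exp 4 := by
    calc w ^ j * Real.exp (-(e * j)) ≤ Real.exp (e + 2 * p) ^ j * Real.exp (-(e * j)) := by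
          apply mul_le_mul_of_nonneg_right _ (Real.exp_pos _).le
          exact pow_le_pow_left₀ hw0 hw2 j
      _ = Real.exp (2 * p * j) := by
          rw [← Real.exp_nat_mul, ← Real.exp_add]
          congr 1
          ring
      _ ≤ Real.exp 4 := by
          apply Real.exp_le_exp.2
          have h5 : (j : ℝ) ≤ n := by exact_mod_cast hj
          have h6 : p * j ≤ 2 := by
            calc p * j ≤ (2 / n) * n := by
                  apply mul_le_mul hp2 h5 (by positivity) (by positivity)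
              _ = 2 := by field_simp
          nlinarith
  have hwr : w ^ r / (n : ℝ) ^ r ≤ (1 + δ) ^ r / (n : ℝ) ^ r := by
    apply div_le_div_of_nonneg_right _ (by positivity)
    exact pow_le_pow_left₀ hw0 hw1 r
  calc (p / (1 - p)) ^ (j + r) * ((n : ℝ) ^ j * Real.exp (- l * j / (n : ℝ) ^ ((1 : ℝ) / 3)))
      = (w ^ j * Real.exp (-(e * j))) * (w ^ r / (n : ℝ) ^ r) := by
        rw [hexp, ← mul_assoc, hpw]
        ring
    _ ≤ Real.exp 4 * ((1 + δ) ^ r / (n : ℝ) ^ r) := by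
        apply mul_le_mul hwj hwr (by positivity) (Real.exp_pos _).le

theorem ev (l δ : ℝ) (hδ : 0 < δ) : ∀ᶠ n : ℕ in atTop,
    |l / (n : ℝ) ^ ((1 : ℝ) / 3)| ≤ δ / 4 ∧ (2 : ℝ) / n ≤ δ / 8 := by
  have h1 : Tendsto (fun n : ℕ => l / (n : ℝ) ^ ((1 : ℝ) / 3)) atTop (𝓝 0) := by
    apply Tendsto.div_atTop tendsto_const_nhds
    exact (tendsto_rpow_atTop (by norm_num : (0 : ℝ) < 1 / 3)).comp tendsto_natCast_atTop_atTop
  have h2 : Tendsto (fun n : ℕ => (2 : ℝ) / n) atTop (𝓝 0) :=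
    tendsto_const_div_atTop_nhds_zero_nat 2
  have h3 : ∀ᶠ n : ℕ in atTop, |l / (n : ℝ) ^ ((1 : ℝ) / 3)| < δ / 4 := by
    have := h1.abs
    rw [abs_zero] at this
    exact this.eventually_lt_const (by linarith)
  have h4 : ∀ᶠ n : ℕ in atTop, (2 : ℝ) / n < δ / 8 := h2.eventually_lt_const (by linarith)
  filter_upwards [h3, h4] with n h5 h6
  exact ⟨h5.le, h6.le⟩

theorem goalWR (hCOR2 : StmtCOR2) (hKNU : StmtKNU) (hKSM : StmtKSM) (hSSM : StmtSSM) : StmtWR := by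
  intro l t ht1 ht2
  obtain ⟨δ, hδ0, hδ1, c, hc0, hc1, C, hC, n₁, hS⟩ := hSSM t ht1 ht2
  obtain ⟨CK, hCK, hK⟩ := hKSM δ hδ0 hδ1
  obtain ⟨n₂, hev⟩ := eventually_atTop.1 (ev l δ hδ0)
  refine ⟨δ, hδ0, hδ1, c, hc0, Real.exp 4 * (CK * C), by positivity, max (max n₁ n₂) 1, ?_⟩
  intro n hn
  have hn1 : n₁ ≤ n := ((le_max_left _ _).trans (le_max_left _ _)).trans hn
  have hn2 : n₂ ≤ n := ((le_max_right _ _).trans (le_max_left _ _)).trans hn
  have hn0 : 1 ≤ n := (le_max_right _ _).trans hn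
  have hnR : (0 : ℝ) < n := by exact_mod_cast hn0
  obtain ⟨he, hp⟩ := hev n hn2
  set u : ℝ := pc l n / (1 - pc l n) with hu
  set R : ℕ := ⌊c * n⌋₊ with hR
  have hu0 : 0 ≤ u := (expfac l δ hδ0 hδ1 n hn0 he hp 0 0 (Nat.zero_le _)).2
  -- the decomposition of Nc
  have hNc : ∀ j r : ℕ, 1 ≤ j → 1 ≤ r → (Nc j r : ℝ) / (j.factorial : ℝ) ≤
      ∑ s ∈ Icc 1 j, (Kc s r : ℝ) / (s.factorial : ℝ) *
        ((s : ℝ) * (j : ℝ) ^ (j - s) / ((j : ℝ) * ((j - s).factorial : ℝ))) := by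
    intro j r hj hr
    have h1 := hCOR2 j r hr
    have h2 : (Nc j r : ℝ) * j ≤ ∑ s ∈ Icc 1 j, (j.choose s : ℝ) * Kc s r * (s * (j : ℝ) ^ (j - s)) := by
      exact_mod_cast h1
    have hj0 : (0 : ℝ) < j := by exact_mod_cast hj
    have hjf : (0 : ℝ) < j.factorial := by exact_mod_cast j.factorial_pos
    have h3 : (Nc j r : ℝ) / (j.factorial : ℝ) = ((Nc j r : ℝ) * j) / (j * j.factorial) := by
      field_simp
    rw [h3]
    refine (div_le_div_of_nonneg_right h2 (by positivity)).trans (le_of_eq ?_)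
    rw [Finset.sum_div]
    apply Finset.sum_congr rfl
    intro s hs
    rw [Finset.mem_Icc] at hs
    have h4 : (j.choose s : ℝ) = (j.factorial : ℝ) / ((s.factorial : ℝ) * ((j - s).factorial : ℝ)) :=
      Nat.cast_choose ℝ hs.2
    rw [h4]
    have h5 : (0 : ℝ) < s.factorial := by exact_mod_cast s.factorial_pos
    have h6 : (0 : ℝ) < (j - s).factorial := by exact_mod_cast (j - s).factorial_pos
    field_simp
  -- abbreviation
  let X : ℕ → ℝ := fun j => Real.exp (-(j : ℝ) - (1 - δ) * (j : ℝ) ^ 3 / (6 * (n : ℝ) ^ 2))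
  have hX : ∀ j, 0 < X j := fun j => Real.exp_pos _
  let Y : ℕ → ℕ → ℝ := fun s j => (s : ℝ) * (j : ℝ) ^ (j - s) / ((j : ℝ) * ((j - s).factorial : ℝ))
  have hY : ∀ s j, 0 ≤ Y s j := fun s j => by positivity
  have hterm : ∀ j ∈ Icc 1 n, yy t u R j *
      ((n : ℝ) ^ j * Real.exp (-(j : ℝ) - (1 - δ) * (j : ℝ) ^ 3 / (6 * (n : ℝ) ^ 2)
      - l * j / (n : ℝ) ^ ((1 : ℝ) / 3))) / (j.factorial : ℝ) ≤
      ∑ r ∈ Icc 1 R, Real.exp 4 * (t ^ (r + 1) * (1 + δ) ^ r / (n : ℝ) ^ r *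
        ∑ s ∈ Icc 1 j, (Kc s r : ℝ) / (s.factorial : ℝ) * (Y s j * X j)) := by
    intro j hj
    rw [Finset.mem_Icc] at hj
    rw [yy, Finset.sum_mul, Finset.sum_div]
    apply Finset.sum_le_sum
    intro r hr
    rw [Finset.mem_Icc] at hr
    have h1 := (expfac l δ hδ0 hδ1 n hn0 he hp j r hj.2).1
    have h2 := hNc j r hj.1 hr.1
    have h3 : Real.exp (-(j : ℝ) - (1 - δ) * (j : ℝ) ^ 3 / (6 * (n : ℝ) ^ 2)
      - l * j / (n : ℝ) ^ ((1 : ℝ) / 3)) = X j * Real.exp (- l * j / (n : ℝ) ^ ((1 : ℝ) / 3)) := by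
      change _ = Real.exp _ * _
      rw [← Real.exp_add]
      congr 1
      ring
    rw [h3]
    have h4 : t ^ (r + 1) * (Nc j r : ℝ) * u ^ (j + r) *
        ((n : ℝ) ^ j * (X j * Real.exp (- l * j / (n : ℝ) ^ ((1 : ℝ) / 3)))) / (j.factorial : ℝ) =
        (t ^ (r + 1) * X j) * (((Nc j r : ℝ) / (j.factorial : ℝ)) * (u ^ (j + r) * ((n : ℝ) ^ j *
          Real.exp (- l * j / (n : ℝ) ^ ((1 : ℝ) / 3))))) := by ring
    rw [h4]
    have ht0 : 0 < t := by linarith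
    have h5 : ((Nc j r : ℝ) / (j.factorial : ℝ)) * (u ^ (j + r) * ((n : ℝ) ^ j *
          Real.exp (- l * j / (n : ℝ) ^ ((1 : ℝ) / 3)))) ≤
        (∑ s ∈ Icc 1 j, (Kc s r : ℝ) / (s.factorial : ℝ) * Y s j) *
          (Real.exp 4 * ((1 + δ) ^ r / (n : ℝ) ^ r)) := by
      apply mul_le_mul h2 h1 (by positivity)
      apply Finset.sum_nonneg
      intro s _
      have := hY s j
      positivity
    calc (t ^ (r + 1) * X j) * (((Nc j r : ℝ) / (j.factorial : ℝ)) * (u ^ (j + r) * ((n : ℝ) ^ j *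
          Real.exp (- l * j / (n : ℝ) ^ ((1 : ℝ) / 3))))) ≤
        (t ^ (r + 1) * X j) * ((∑ s ∈ Icc 1 j, (Kc s r : ℝ) / (s.factorial : ℝ) * Y s j) *
          (Real.exp 4 * ((1 + δ) ^ r / (n : ℝ) ^ r))) := by
          apply mul_le_mul_of_nonneg_left h5
          have := (hX j).le
          positivity
      _ = Real.exp 4 * (t ^ (r + 1) * (1 + δ) ^ r / (n : ℝ) ^ r *
        ∑ s ∈ Icc 1 j, (Kc s r : ℝ) / (s.factorial : ℝ) * (Y s j * X j)) := by
          have h6 : ∑ s ∈ Icc 1 j, (Kc s r : ℝ) / (s.factorial : ℝ) * (Y s j * X j) =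
            (∑ s ∈ Icc 1 j, (Kc s r : ℝ) / (s.factorial : ℝ) * Y s j) * X j := by
            rw [Finset.sum_mul]
            apply Finset.sum_congr rfl
            intro s _
            ring
          rw [h6]
          ring
  have ht0 : 0 < t := by linarith
  -- the inner bound
  have hinner : ∀ r ∈ Icc 1 R, ∑ j ∈ Icc 1 n, ∑ s ∈ Icc 1 j, (Kc s r : ℝ) / (s.factorial : ℝ) *
      (Y s j * X j) ≤ CK * ∑ s ∈ Icc 1 n, ee r / ((3 * r - 1).factorial : ℝ) *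
        ((s : ℝ) + r) ^ (3 * r - 1) * Real.exp (36 * (r : ℝ) ^ 2 / ((s : ℝ) + r)) *
      Real.exp (-(1 - 2 * δ) * (2 / 3) * ((s : ℝ) ^ ((3 : ℝ) / 2) / Real.sqrt n)) := by
    intro r hr
    rw [Finset.mem_Icc] at hr
    have h1 : ∑ j ∈ Icc 1 n, ∑ s ∈ Icc 1 j, (Kc s r : ℝ) / (s.factorial : ℝ) * (Y s j * X j) =
        ∑ s ∈ Icc 1 n, ∑ j ∈ Icc s n, (Kc s r : ℝ) / (s.factorial : ℝ) * (Y s j * X j) := by
      apply Finset.sum_comm'
      intro x y
      simp only [Finset.mem_Icc]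
      omega
    rw [h1, Finset.mul_sum]
    apply Finset.sum_le_sum
    intro s hs
    rw [Finset.mem_Icc] at hs
    rw [← Finset.mul_sum]
    have h2 := hK n s hs.1 hs.2
    have h3 := hKNU s r hr.1 hs.1
    have h4 : 0 ≤ ∑ j ∈ Icc s n, Y s j * X j :=
      Finset.sum_nonneg fun j _ => mul_nonneg (hY s j) (hX j).le
    calc (Kc s r : ℝ) / (s.factorial : ℝ) * ∑ j ∈ Icc s n, Y s j * X j ≤
        (ee r / ((3 * r - 1).factorial : ℝ) * ((s : ℝ) + r) ^ (3 * r - 1) *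
          Real.exp (36 * (r : ℝ) ^ 2 / ((s : ℝ) + r))) *
        (CK * Real.exp (-(1 - 2 * δ) * (2 / 3) * ((s : ℝ) ^ ((3 : ℝ) / 2) / Real.sqrt n))) := by
          apply mul_le_mul h3 h2 h4
          have : 0 ≤ ee r := by unfold ee; positivity
          positivity
      _ = _ := by ring
  calc ∑ j ∈ Icc 1 n, yy t u R j *
      ((n : ℝ) ^ j * Real.exp (-(j : ℝ) - (1 - δ) * (j : ℝ) ^ 3 / (6 * (n : ℝ) ^ 2)
      - l * j / (n : ℝ) ^ ((1 : ℝ) / 3))) / (j.factorial : ℝ)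
      ≤ ∑ j ∈ Icc 1 n, ∑ r ∈ Icc 1 R, Real.exp 4 * (t ^ (r + 1) * (1 + δ) ^ r / (n : ℝ) ^ r *
        ∑ s ∈ Icc 1 j, (Kc s r : ℝ) / (s.factorial : ℝ) * (Y s j * X j)) := Finset.sum_le_sum hterm
    _ = ∑ r ∈ Icc 1 R, Real.exp 4 * (t ^ (r + 1) * (1 + δ) ^ r / (n : ℝ) ^ r *
        ∑ j ∈ Icc 1 n, ∑ s ∈ Icc 1 j, (Kc s r : ℝ) / (s.factorial : ℝ) * (Y s j * X j)) := by
        rw [Finset.sum_comm]
        apply Finset.sum_congr rfl
        intro r _
        rw [← Finset.mul_sum, ← Finset.mul_sum]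
    _ ≤ ∑ r ∈ Icc 1 R, Real.exp 4 * (t ^ (r + 1) * (1 + δ) ^ r / (n : ℝ) ^ r *
        (CK * ∑ s ∈ Icc 1 n, ee r / ((3 * r - 1).factorial : ℝ) *
        ((s : ℝ) + r) ^ (3 * r - 1) * Real.exp (36 * (r : ℝ) ^ 2 / ((s : ℝ) + r)) *
      Real.exp (-(1 - 2 * δ) * (2 / 3) * ((s : ℝ) ^ ((3 : ℝ) / 2) / Real.sqrt n)))) := by
        apply Finset.sum_le_sum
        intro r hr
        apply mul_le_mul_of_nonneg_left _ (Real.exp_pos _).le
        apply mul_le_mul_of_nonneg_left (hinner r hr)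
        positivity
    _ = Real.exp 4 * (CK * ∑ r ∈ Icc 1 R, t ^ (r + 1) * (1 + δ) ^ r / (n : ℝ) ^ r *
        ∑ s ∈ Icc 1 n, ee r / ((3 * r - 1).factorial : ℝ) *
        ((s : ℝ) + r) ^ (3 * r - 1) * Real.exp (36 * (r : ℝ) ^ 2 / ((s : ℝ) + r)) *
      Real.exp (-(1 - 2 * δ) * (2 / 3) * ((s : ℝ) ^ ((3 : ℝ) / 2) / Real.sqrt n))) := by
        rw [Finset.mul_sum, Finset.mul_sum]
        apply Finset.sum_congr rfl
        intro r _
        ring
    _ ≤ Real.exp 4 * (CK * C) := by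
        apply mul_le_mul_of_nonneg_left _ (Real.exp_pos _).le
        apply mul_le_mul_of_nonneg_left (hS n hn1) hCK.le

end Pool.Agent.Helper85.AF
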